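import Pool.Agent.X287.OffLine
import Pool.Agent.X287.RSys2

/-!
# The conjecture of Hasse and Weil off the critical line, from one-sided bounds for finite sums

`K` is any number field of degree `d` and `E : y² = x³ + a x + b`, `a, b ∈ 𝓞_K`, any elliptic curve over `K` (every
elliptic curve over `K` has such an equation). The `L`-series is the COMPLETE one,

`L(E/K, s) = ∏_v (1 - c_v q_v^{-s} + e_v q_v^{-2s})⁻¹`, `Re s > 3/2`, all finite places `v`,

where `c_v = q_v - N_v` (`N_v` the number of affine points of the equation modulo `v`) and `e_v = q_v` if `v` does not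
divide `6 (4 a³ + 27 b²)`; at the finitely many other places `c_v, e_v` are the usual numbers, or any integers such
that the reciprocal roots of the local polynomial have absolute value `≤ √q_v`. Let
`γ(s) = N^{s/2} π^{-ds} (Γ(s/2) Γ((s+1)/2))^d` be the factor of the completed `L`-function (`N > 0`; the conductor),
`w = ± 1`, so that the functional equation is `w γ(s) L(s) = γ(2 - s) L(2 - s)`; in the statements it is written with
the entire function `1/γ`, as `w L(s) (1/γ)(2 - s) = L(2 - s) (1/γ)(s)`.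

The hypothesis is that the conjecture holds NEAR THE REAL SEGMENT `[1, 3/2]`: `L(E/K, s)` continues to a function `F`
holomorphic near `[1, 3/2]`, with the functional equation near the central point `s = 1`. For general `K` the
existence of a continuation to non-real points with `1 < Re s < 3/2` is not known. For `ρ' > ρ > 1` let

`S_{ρ,ρ'}(Y) = - ∑ w_{1/ρ}(k log q_v / log Y) (α_v^k + β_v^k) / (k q_v^k)`,

the FINITE sum over the pairs `(v, k)`, `k ≥ 1`, with `q_v^k ≤ exp((log Y)^ρ')`, where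
`1 - c_v X + e_v X² = (1 - α_v X) (1 - β_v X)` and `w_α` is the smooth Mittag-Leffler weight
`w_α(u) = (2π)⁻¹ ∫ Re (exp(z - u z^α) / z) dt`, `z = 1 + i t`, `w_α(0) = 1`. Let `(T)` be the following statement.

  For some `δ > 0`, `L(E/K, s)` extends to a holomorphic function on `ℂ` without the two closed rays
  `{1 + i t : |t| ≥ δ}` of the critical line; it satisfies the functional equation on this whole domain; and its zeros
  off the critical line are among `0, -1, -2, ...`.

(So `(T)` is the conjecture of Hasse and Weil, with the Riemann hypothesis, except for the points of the critical line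
`Re s = 1`.) Fix, for every `ρ`, a `ρ' = t(ρ) > ρ`. It is shown:

1. `(T)` holds if and only if for all `ρ > 1` and `ε > 0`: `S_{ρ,ρ'}(Y) ≤ exp (ε (log Y)^ρ)` for all large `Y`.
2. Let `m` be the order and `l` the leading coefficient of `F` at `1`. For real `x`: `(T)` and `m ≤ x` if and only if
   `limsup S_{ρ,ρ'}(Y) / log log Y ≤ x` for all `ρ > 1`. For `j ∈ ℕ` and real `B > 0`: `(T)`, `m = j`, `l = B` if and
   only if `S_{ρ,ρ'}(Y) - j log log Y → j γ / ρ - log B` for all `ρ > 1` (`γ` the constant of Euler).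

The condition in 1 and the first condition in 2 are ONE-SIDED: an upper bound for finite sums of point counts yields
the continuation to the plane without two rays.

Proof. The continuation to the half plane `Re s > 1` without zeros: by Landau's theorem on Laplace transforms of
nonnegative functions, for the functions `log L(1 + v^{1/ρ})` (`Pool.Agent.X287.RSect`, `Level`, `Level3`); the
functional equation near `s = 1` and the identity theorem in a half disc give the rest (`Pool.Agent.X287.OffLine`).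
-/

set_option autoImplicit false

open IsDedekindDomain NumberField Filter Topology

namespace Pool.Agent.Results.MP_bf61d2_nt.ContinuationOffTheLine

variable {K : Type} [Field K] [NumberField K]

/-- The prime `v` does not divide `6 (4 a³ + 27 b²)`. -/
def Good (a b : 𝓞 K) (v : HeightOneSpectrum (𝓞 K)) : Prop :=
  6 * (4 * a ^ 3 + 27 * b ^ 2) ∉ v.asIdeal

/-- `q_v`, the number of elements of the residue field. -/
noncomputable def q (v : HeightOneSpectrum (𝓞 K)) : ℕ := Ideal.absNorm v.asIdeal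

/-- `N_v`, the number of affine points of `y² = x³ + a x + b` modulo `v`. -/
noncomputable def points (a b : 𝓞 K) (v : HeightOneSpectrum (𝓞 K)) : ℕ :=
  Nat.card {P : (𝓞 K ⧸ v.asIdeal) × (𝓞 K ⧸ v.asIdeal) //
    P.2 ^ 2 = P.1 ^ 3 + Ideal.Quotient.mk v.asIdeal a * P.1 + Ideal.Quotient.mk v.asIdeal b}

/-- The coefficients of the local polynomials `1 - c_v X + e_v X²`: `c_v = q_v - N_v`, `e_v = q_v` for
`v ∤ 6 (4 a³ + 27 b²)`; for the other `v` the reciprocal roots have absolute value at most `√q_v`. -/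
def IsLocalData (a b : 𝓞 K) (c e : HeightOneSpectrum (𝓞 K) → ℤ) : Prop :=
  (∀ v, Good a b v → c v = (q v : ℤ) - points a b v ∧ e v = q v) ∧
  ∀ v, ¬Good a b v → ∀ z : ℂ, z ^ 2 - c v * z + e v = 0 → ‖z‖ ≤ √(q v : ℝ)

/-- The power sums `α ^ n + β ^ n`, where `1 - c X + e X² = (1 - α X) (1 - β X)`, by the recursion. -/
def powerSum (c e : ℤ) : ℕ → ℤ
  | 0 => 2
  | 1 => c
  | n + 2 => c * powerSum c e (n + 1) - e * powerSum c e n

/-- The Mittag-Leffler weight `w_α(u) = (2π)⁻¹ ∫ Re (exp (z - u z^α) / z) dt`, `z = 1 + it`. -/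
noncomputable def weight (α u : ℝ) : ℝ :=
  (2 * Real.pi)⁻¹ * ∫ t : ℝ, (Complex.exp ((1 + t * Complex.I) -
    u * (1 + t * Complex.I) ^ (α : ℂ)) / (1 + t * Complex.I)).re

/-- The pairs `(v, k)`, `k = x.2 + 1`, with `q_v ^ k ≤ exp((log Y)^ρ')`. -/
def pairs (K : Type) [Field K] [NumberField K] (ρ' Y : ℝ) : Set (HeightOneSpectrum (𝓞 K) × ℕ) :=
  {x | (q x.1 : ℝ) ^ (x.2 + 1) ≤ Real.exp (Real.log Y ^ ρ')}

/-- `S_{ρ,ρ'}(Y)`: minus the sum over the finite set `pairs`, with `k = x.2 + 1`. -/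
noncomputable def S (c e : HeightOneSpectrum (𝓞 K) → ℤ) (ρ ρ' Y : ℝ) : ℝ :=
  -∑ᶠ x ∈ pairs K ρ' Y, weight ρ⁻¹ (((x.2 : ℝ) + 1) * Real.log (q x.1) / Real.log Y) *
    (powerSum (c x.1) (e x.1) (x.2 + 1) / (((x.2 : ℝ) + 1) * (q x.1 : ℝ) ^ (x.2 + 1)))

/-- `G` is the `L`-series for `Re s > 3/2`. -/
def IsLSeries (c e : HeightOneSpectrum (𝓞 K) → ℤ) (G : ℂ → ℂ) : Prop :=
  ∀ s : ℂ, 3 / 2 < s.re → HasProd (fun v : HeightOneSpectrum (𝓞 K) =>
    (1 - c v * (q v : ℂ) ^ (-s) + e v * ((q v : ℂ) ^ (-s)) ^ 2)⁻¹) (G s)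

/-- `F` continues the `L`-series holomorphically to a neighbourhood of the real segment `[1, 3/2]`. -/
def IsRealContinuation (c e : HeightOneSpectrum (𝓞 K) → ℤ) (F : ℂ → ℂ) : Prop :=
  IsLSeries c e F ∧ ∀ x : ℝ, 1 ≤ x → x ≤ 3 / 2 → AnalyticAt ℂ F (x : ℂ)

/-- The entire function `1/γ(s) = N^{-s/2} π^{ds} (1/Γ(s/2) 1/Γ((s+1)/2))^d`. -/
noncomputable def recipGamma (N : ℝ) (d : ℕ) (s : ℂ) : ℂ :=
  (N : ℂ) ^ (-(s / 2)) * (Real.pi : ℂ) ^ (d * s) *
    ((Complex.Gamma (s / 2))⁻¹ * (Complex.Gamma ((s + 1) / 2))⁻¹) ^ d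

/-- The functional equation `w γ(s) F(s) = γ(2 - s) F(2 - s)` at the point `s`. -/
def FunctionalEquation (N : ℝ) (d : ℕ) (w : ℂ) (F : ℂ → ℂ) (s : ℂ) : Prop :=
  w * F s * recipGamma N d (2 - s) = F (2 - s) * recipGamma N d s

/-- `F` has the order `m` and the leading coefficient `l` at `s = 1`. -/
def HasOrder (F : ℂ → ℂ) (m : ℕ) (l : ℂ) : Prop :=
  l ≠ 0 ∧ Tendsto (fun s => F s / (s - 1) ^ m) (𝓝[≠] 1) (𝓝 l)

/-- `(T)`: continuation to the plane without the rays `{1 + it : |t| ≥ δ}`, with the functional equation; the zeros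
off the line `Re s = 1` are among `0, -1, -2, ...`. -/
def OffLine (c e : HeightOneSpectrum (𝓞 K) → ℤ) (N : ℝ) (d : ℕ) (w : ℂ) : Prop :=
  ∃ δ : ℝ, 0 < δ ∧ ∃ G : ℂ → ℂ, IsLSeries c e G ∧
    (∀ s : ℂ, s.re ≠ 1 ∨ |s.im| < δ → DifferentiableAt ℂ G s ∧ FunctionalEquation N d w G s) ∧
    ∀ s : ℂ, s.re ≠ 1 → G s = 0 → ∃ n : ℕ, s = -n

/-! ### Translation -/

theorem ps_eq (c e : ℤ) (n : ℕ) : Pool.Agent.X287.Kit.ps c e n = powerSum c e n := by
  induction n using Nat.twoStepInduction with
  | zero => simp [Pool.Agent.X287.Kit.ps, powerSum]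
  | one => simp [Pool.Agent.X287.Kit.ps, powerSum]
  | more n ih1 ih2 =>
    simp only [Pool.Agent.X287.Kit.ps, powerSum]
    rw [ih1, ih2]
    push_cast
    ring

theorem S_eq (c e : HeightOneSpectrum (𝓞 K) → ℤ) (ρ ρ' Y : ℝ) : S c e ρ ρ' Y =
    -Pool.Agent.TH942.ES.StE (fun v : HeightOneSpectrum (𝓞 K) => q v)
      (Pool.Agent.X287.Kit.al (fun v : HeightOneSpectrum (𝓞 K) => q v)
        (Pool.Agent.X287.Kit.rts c e) 1) ρ ρ' Y := by
  unfold S Pool.Agent.TH942.ES.StE
  congr 1
  refine finsum_congr fun x => ?_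
  refine finsum_congr_Prop rfl fun _ => ?_
  have e1 : weight = Pool.Agent.TH942.SL.wml := rfl
  rw [e1]
  congr 1
  have h := Pool.Agent.X287.Kit.full_cP (c := c) (e := e) (c₀ := 1) x
  refine Eq.trans ?_ h.symm
  rw [ps_eq, mul_one]
  congr 2
  rw [← Real.rpow_natCast]
  push_cast
  rfl

open Pool.Agent.X287.Kit Pool.Agent.X287.RS in
/-- **The conjecture of Hasse and Weil off the critical line.** -/
theorem result (K : Type) [Field K] [NumberField K] (a b : 𝓞 K)
    (c e : HeightOneSpectrum (𝓞 K) → ℤ) (hce : IsLocalData a b c e)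
    (N : ℝ) (hN : 0 < N) (d : ℕ) (w : ℂ) (hw : w = 1 ∨ w = -1)
    (F : ℂ → ℂ) (hF : IsRealContinuation c e F)
    (hfe : ∀ᶠ s in 𝓝 (1 : ℂ), FunctionalEquation N d w F s) :
    (∀ ρ' Y : ℝ, (pairs K ρ' Y).Finite) ∧ ∀ t : ℝ → ℝ, (∀ ρ, ρ < t ρ) →
    -- 1. the continuation
    (OffLine c e N d w ↔ ∀ ρ : ℝ, 1 < ρ → ∀ ε : ℝ, 0 < ε → ∀ᶠ Y : ℝ in atTop,
      S c e ρ (t ρ) Y ≤ Real.exp (ε * Real.log Y ^ ρ)) ∧
    -- 2. order and leading coefficient at `1`
    ∃ (m : ℕ) (l : ℂ), HasOrder F m l ∧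
      (∀ x : ℝ, (OffLine c e N d w ∧ (m : ℝ) ≤ x) ↔
        ∀ ρ : ℝ, 1 < ρ → ∀ ε : ℝ, 0 < ε → ∀ᶠ Y : ℝ in atTop,
          S c e ρ (t ρ) Y ≤ (x + ε) * Real.log (Real.log Y)) ∧
      ∀ (j : ℕ) (B : ℝ), 0 < B → ((OffLine c e N d w ∧ m = j ∧ l = B) ↔
        ∀ ρ : ℝ, 1 < ρ → Tendsto (fun Y : ℝ => S c e ρ (t ρ) Y - j * Real.log (Real.log Y)) atTop
            (𝓝 (j * Real.eulerMascheroniConstant / ρ - Real.log B))) := by
  have hloc : Local a b c e := ⟨fun v hv => by
    obtain ⟨h1, h2⟩ := hce.1 v hv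
    constructor
    · rw [h1]
      push_cast
      rfl
    · rw [h2]
      push_cast
      rfl, hce.2⟩
  have E := full_sys hloc le_rfl
  have hreal := full_real (K := K) (c := c) (e := e) (c₀ := 1)
  have hc : (1 : ℂ) = ((1 : ℝ) : ℂ) := by norm_num
  have ha : (3 / 2 : ℝ) = 1 + 1 / 2 := by norm_num
  have hl := full_loc (K := K) (c := c) (e := e) hc
  have H := rcon E hl hc ha hF.1 hF.2
  have h0 := an_all E hl hc ha hF.1 hF.2 0 le_rfl
  rw [Complex.ofReal_zero] at h0
  have hw2 : w ^ 2 = 1 := by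
    rcases hw with h | h <;> rw [h] <;> norm_num
  -- the statement `(T)` and the half plane
  have hT : OffLine c e N d w ↔ ∃ G : ℂ → ℂ, ExtP (fun v : HeightOneSpectrum (𝓞 K) => q v)
      (al (fun v : HeightOneSpectrum (𝓞 K) => q v) (rts c e) 1) 0 G := by
    refine Iff.trans ?_ (zp_iff E hl hc ha 0)
    constructor
    · rintro ⟨δ, hδ, G, h1, h2, h3⟩
      refine ⟨G, h1, fun s hs => ?_⟩
      have hs1 : 1 < s.re := by
        rcases hs with hs | hs <;> linarith
      refine ⟨(h2 s (Or.inl hs1.ne')).1, fun h4 => ?_⟩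
      obtain ⟨n, hn⟩ := h3 s hs1.ne' h4
      rw [hn, Complex.neg_re, Complex.natCast_re] at hs1
      have := Nat.cast_nonneg (α := ℝ) n
      linarith
    · rintro ⟨G, h1, h2⟩
      have hG : ∀ s : ℂ, 1 < s.re → DifferentiableAt ℂ G s ∧ G s ≠ 0 := fun s hs =>
        h2 s (Or.inl (by linarith))
      have hag : ∀ x : ℝ, 1 < x → F =ᶠ[𝓝 (x : ℂ)] G := by
        intro x hx
        have ho : IsOpen {s : ℂ | 1 < s.re} := isOpen_lt continuous_const Complex.continuous_re
        have hGa : ∀ s : ℂ, 1 < s.re → AnalyticAt ℂ G s := fun s hs => by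
          have : DifferentiableOn ℂ G {s : ℂ | 1 < s.re} := fun z hz =>
            (hG z hz).1.differentiableWithinAt
          exact this.analyticAt (ho.mem_nhds hs)
        have e1 : ∀ y : ℝ, 0 < y → AnalyticAt ℂ (fun s => G (1 + s)) (y : ℂ) := by
          intro y hy
          have := hGa (1 + y) (by
            rw [Complex.add_re, Complex.one_re, Complex.ofReal_re]
            linarith)
          exact AnalyticAt.comp (f := fun s : ℂ => 1 + s) this (by fun_prop)
        have e2 := agree_ray (F := fun s => F (1 + s)) (G := fun s => G (1 + s)) (σ := 1 / 2)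
          H.an e1 (ρ := 1) le_rfl (fun s _ hs => by
            have k1 := (isL_iff E hl hc ha).1 hF.1 s hs
            have k2 := (isL_iff E hl hc ha).1 h1 s hs
            rw [k1, k2]) (x := x - 1) (by linarith)
        have e3 : Tendsto (fun z : ℂ => z - 1) (𝓝 (x : ℂ)) (𝓝 ((x - 1 : ℝ) : ℂ)) := by
          have : ((x - 1 : ℝ) : ℂ) = (x : ℂ) - 1 := by push_cast; rfl
          rw [this]
          exact (continuous_id.sub continuous_const).tendsto _
        filter_upwards [e3.eventually e2] with z hz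
        simpa using hz
      obtain ⟨δ, hδ, H', k1, k2, k3, k4⟩ := Pool.Agent.X287.Off.glue hN hw2
        (fun s hs => (hG s hs).1) (by have := hF.2 1 le_rfl (by norm_num); simpa using this) hag hfe
      refine ⟨δ, hδ, H', fun s hs => ?_, fun s hs => ⟨k2 s hs, k3 s hs⟩, fun s hs hz => ?_⟩
      · rw [k1 s (by linarith)]
        exact h1 s hs
      · rcases lt_or_gt_of_ne hs with h5 | h5
        · rw [k4 s h5] at hz
          have h6 : 1 < (2 - s).re := by
            rw [Complex.sub_re]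
            norm_num
            linarith
          have h7 : Pool.Agent.X287.Off.gi N d (2 - s) ≠ 0 :=
            Pool.Agent.X287.Off.gi_ne hN (by linarith)
          have hw0 : w ≠ 0 := by
            intro h
            rw [h] at hw2
            norm_num at hw2
          have h8 : Pool.Agent.X287.Off.gi N d s = 0 := by
            rcases div_eq_zero_iff.1 hz with h9 | h9
            · rcases mul_eq_zero.1 h9 with h10 | h10
              · rcases mul_eq_zero.1 h10 with h11 | h11
                · exact absurd h11 hw0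
                · exact absurd h11 (hG _ h6).2
              · exact h10
            · exact absurd h9 h7
          exact Pool.Agent.X287.Off.gi_zero hN h8
        · rw [k1 s h5] at hz
          exact absurd hz (hG s h5).2
  -- the half plane and the sector
  have hPS : (∃ G : ℂ → ℂ, ExtP (fun v : HeightOneSpectrum (𝓞 K) => q v)
      (al (fun v : HeightOneSpectrum (𝓞 K) => q v) (rts c e) 1) 0 G) ↔
      ∃ G : ℂ → ℂ, Ext (fun v : HeightOneSpectrum (𝓞 K) => q v)
      (al (fun v : HeightOneSpectrum (𝓞 K) => q v) (rts c e) 1) 1 G := by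
    have h1 : ∀ s : ℂ, (s ∈ Pool.Agent.TH942.SL.Sect 1 ∨ 1 / 2 < s.re) ↔ (0 < s.re ∨ 1 / 2 < s.re) := by
      intro s
      refine or_congr_left ?_
      unfold Pool.Agent.TH942.SL.Sect
      rw [Set.mem_ofPred_eq, mul_one, Complex.abs_arg_lt_pi_div_two_iff]
      constructor
      · rintro ⟨h2, h3⟩
        exact h3.resolve_right h2
      · intro h2
        exact ⟨Pool.Agent.TH942.SL.ne_zero' h2, Or.inl h2⟩
    constructor
    · rintro ⟨G, hG⟩
      exact ⟨G, fun s hs => hG.diff s ((h1 s).1 hs), fun s hs => hG.ne s ((h1 s).1 hs), hG.eq⟩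
    · rintro ⟨G, hG⟩
      exact ⟨G, fun s hs => hG.diff s ((h1 s).2 hs), fun s hs => hG.ne s ((h1 s).2 hs), hG.eq⟩
  refine ⟨fun ρ' Y => E.finS _, fun t ht => ⟨?_, ?_⟩⟩
  · rw [hT, hPS]
    obtain ⟨m, A, hA⟩ := exists_lead E H h0
    have h5 := cont_slow E hreal H hA (ρ₀ := 1) le_rfl ht
    simp only [S_eq]
    exact h5
  · obtain ⟨m, A, hA⟩ := exists_lead E H h0
    refine ⟨m, A, (lead_iff h0 m A).2 hA, fun x => ?_, fun j B hB => ?_⟩
    · rw [hT, hPS]
      have h2 := order_one E hreal H hA (ρ₀ := 1) le_rfl ht x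
      simp only [S_eq]
      exact h2.symm
    · rw [hT, hPS]
      have hQ : Tendsto (fun Y : ℝ => (j : ℝ) * Real.log (Real.log Y) -
          j * Real.log (Real.log Y)) atTop (𝓝 0) := by
        simp only [sub_self]
        exact tendsto_const_nhds
      have h2 := coeff_eq E hreal H hA (ρ₀ := 1) le_rfl ht hQ hB
      have h3 : ∀ ρ : ℝ, -0 - Real.log B + j * Real.eulerMascheroniConstant / ρ =
          j * Real.eulerMascheroniConstant / ρ - Real.log B := fun ρ => by ring
      simp only [h3] at h2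
      simp only [S_eq]
      exact h2

end Pool.Agent.Results.MP_bf61d2_nt.ContinuationOffTheLine
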