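import Pool.Agent.X22.EC

/-!
# Elliptic curves over a number field from arbitrarily thin families: bounds of GRH strength for the L-functions of all odd
symmetric powers, twisted by all characters and at all heights

Nothing is used besides Mathlib in the statement.
-/

set_option autoImplicit false

namespace Pool.Agent.Results.MP_bf61d2_nt.FewDigitSymmetricPowers

open Finset NumberField IsDedekindDomain Module

section
variable {F : Type} [Field F] [NumberField F]

/-- The coefficient `a_v` of the elliptic curve `Y ^ 2 = X ^ 3 + α X + β` over the number field `F` (`α`, `β` algebraic integers of `F`) at a finite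
place `v` of good reduction not above `2`: the number `N v` of the elements of the residue field minus the number of the affine points. -/
noncomputable def trace (α β : 𝓞 F) (v : HeightOneSpectrum (𝓞 F)) : ℤ :=
  (Ideal.absNorm v.asIdeal : ℤ) - Nat.card {P : (𝓞 F ⧸ v.asIdeal) × (𝓞 F ⧸ v.asIdeal) //
    P.2 ^ 2 = P.1 ^ 3 + Ideal.Quotient.mk v.asIdeal α * P.1 + Ideal.Quotient.mk v.asIdeal β}

/-- The trace of Frobenius at `v` on the `k`-th symmetric power, normalised to have weight `0`: it is `U_k (cos θ)`, `cos θ = a_v / (2 (N v) ^ (1 / 2))`,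
with the Chebyshev polynomial `U_k` of the second kind, `U_k (cos θ) = ∑ exp (i (k - 2 j) θ)`, `0 ≤ j ≤ k`. -/
noncomputable def symTrace (k : ℕ) (α β : 𝓞 F) (v : HeightOneSpectrum (𝓞 F)) : ℝ :=
  (Polynomial.Chebyshev.U ℝ k).eval ((trace α β v : ℝ) / (2 * Real.sqrt (Ideal.absNorm v.asIdeal)))

/-- The partial sum `∑ w (v) U_k (cos θ_v) (log N v) (N v) ^ (- i τ)` over the places `v` of `F` not above `2` with `N v ≤ x`. -/
noncomputable def partialSum (k : ℕ) (α β : 𝓞 F) (w : HeightOneSpectrum (𝓞 F) → ℂ) (τ : ℝ) (x : ℕ) : ℂ :=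
  ∑ᶠ v ∈ {v : HeightOneSpectrum (𝓞 F) | Ideal.absNorm v.asIdeal ≤ x ∧ (2 : 𝓞 F) ∉ v.asIdeal},
    w v * ((symTrace k α β v * Real.log (Ideal.absNorm v.asIdeal) : ℝ) : ℂ) *
      Complex.exp (((-(τ * Real.log (Ideal.absNorm v.asIdeal)) : ℝ) : ℂ) * Complex.I)

end

/-- The digit number `i` (counted from the right, beginning with `0`) of `n` in base `b`. -/
def digit (b i n : ℕ) : ℕ := n / b ^ i % b

/-- The number which arises from the number `N` with at most `K` digits in base `b`, if for every `i ∈ S`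
the digit number `i` is replaced by `f i`. -/
def change (b K N : ℕ) (f : ℕ → ℕ) (S : Finset ℕ) : ℕ :=
  ∑ i ∈ range K, (if i ∈ S then f i else digit b i N) * b ^ i

open Classical in
/-- The number of the choices of `r l` of `K l` positions for all `l < d` for which the vector of the numbers obtained by
changing the digits of the `N l` at the chosen positions (according to `f l`) does not have the property `E`. -/
noncomputable def exceptions {d : ℕ} (b : ℕ) (K r N : Fin d → ℕ) (f : Fin d → ℕ → ℕ) (E : (Fin d → ℕ) → Prop) : ℕ :=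
  ((Fintype.piFinset (fun l => powersetCard (r l) (range (K l)))).filter
    (fun S => ¬ E (fun l => change b (K l) (N l) (f l) (S l)))).card

open Pool.Agent.X22.ND (op mem_op mzc_law absorb hp norm_hp mean_mono)
open Pool.Agent.X22.NF (pr mem_pr splitC resEquiv card_fiber_le)
open Pool.Agent.X22.EC
open Pool.Agent.TH894.NE (mean mean_mul mean_const)

section
variable {F : Type} [Field F] [NumberField F]

lemma trace_eq_tq (α β : 𝓞 F) (v : HeightOneSpectrum (𝓞 F)) (k : Type) [Field k] (e : k ≃+* (𝓞 F ⧸ v.asIdeal)) (s t : k)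
    (hs : e s = Ideal.Quotient.mk v.asIdeal α) (ht : e t = Ideal.Quotient.mk v.asIdeal β) : trace α β v = tq s t := by
  unfold trace tq
  have h1 : Nat.card k = Ideal.absNorm v.asIdeal := Nat.card_congr e.toEquiv
  rw [h1]
  congr 2
  refine (Nat.card_congr ((e.toEquiv.prodCongr e.toEquiv).subtypeEquiv ?_)).symm
  rintro ⟨X, Y⟩
  show Y ^ 2 = X ^ 3 + s * X + t ↔ (e Y) ^ 2 = (e X) ^ 3 + Ideal.Quotient.mk v.asIdeal α * e X + Ideal.Quotient.mk v.asIdeal β
  rw [← hs, ← ht, ← map_pow, ← map_pow, ← map_mul, ← map_add, ← map_add]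
  exact e.injective.eq_iff.symm

lemma trace_bound (α β : 𝓞 F) (v : HeightOneSpectrum (𝓞 F)) (h2 : (2 : 𝓞 F) ∉ v.asIdeal) :
    |(trace α β v : ℝ)| ≤ 2 * Real.sqrt (Ideal.absNorm v.asIdeal) := by
  classical
  have hmax : v.asIdeal.IsMaximal := v.isMaximal
  obtain ⟨k, hk, hkc, hcard, hres⟩ : ∃ (k : Type) (_ : Field k) (_ : Fintype k), Nat.card k = Ideal.absNorm v.asIdeal ∧
      Nonempty (k ≃+* (𝓞 F ⧸ v.asIdeal)) := by
    let i1 : Field (𝓞 F ⧸ v.asIdeal) := Ideal.Quotient.field v.asIdeal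
    have hfin : Finite (𝓞 F ⧸ v.asIdeal) := Ideal.finiteQuotientOfFreeOfNeBot v.asIdeal v.ne_bot
    exact ⟨𝓞 F ⧸ v.asIdeal, i1, Fintype.ofFinite _, rfl, ⟨RingEquiv.refl _⟩⟩
  obtain ⟨e⟩ := hres
  have hchar : ringChar k ≠ 2 := by
    intro hc
    have h3 : (2 : k) = 0 := by
      have := ringChar.Nat.cast_ringChar (R := k)
      rw [hc] at this
      exact_mod_cast this
    apply h2
    rw [← Ideal.Quotient.eq_zero_iff_mem]
    have h4 : e 2 = 0 := by rw [h3, map_zero]
    have h5 : e 2 = (2 : 𝓞 F ⧸ v.asIdeal) := by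
      have := map_natCast e 2
      exact_mod_cast this
    rw [h5] at h4
    have h6 : (Ideal.Quotient.mk v.asIdeal) (2 : 𝓞 F) = (2 : 𝓞 F ⧸ v.asIdeal) := map_ofNat _ 2
    rw [h6, h4]
  have h1 := trace_eq_tq α β v k e (e.symm (Ideal.Quotient.mk v.asIdeal α)) (e.symm (Ideal.Quotient.mk v.asIdeal β))
    (e.apply_symm_apply _) (e.apply_symm_apply _)
  rw [h1, ← hcard]
  exact tq_bound hchar _ _

lemma symTrace_bound (k : ℕ) (α β : 𝓞 F) (v : HeightOneSpectrum (𝓞 F)) (h2 : (2 : 𝓞 F) ∉ v.asIdeal) : |symTrace k α β v| ≤ k + 1 := by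
  unfold symTrace
  apply U_bound
  have h1 := trace_bound α β v h2
  rw [abs_div, abs_of_nonneg (by positivity : (0 : ℝ) ≤ 2 * Real.sqrt (Ideal.absNorm v.asIdeal))]
  exact div_le_one_of_le₀ h1 (by positivity)

/-- reduction modulo a place of degree one -/
noncomputable def red (v : HeightOneSpectrum (𝓞 F)) (p : ℕ) (hp' : p.Prime) (h : Ideal.absNorm v.asIdeal = p) : 𝓞 F →+* ZMod p :=
  ((resEquiv v p hp' h).symm : (𝓞 F ⧸ v.asIdeal) →+* ZMod p).comp (Ideal.Quotient.mk v.asIdeal)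

/-- the odd function -/
noncomputable def uk (k p : ℕ) (n : ℤ) : ℝ := (Polynomial.Chebyshev.U ℝ k).eval ((n : ℝ) / (2 * Real.sqrt p))

lemma uk_odd (k p : ℕ) (hk : Odd k) (n : ℤ) : uk k p (-n) = -uk k p n := by
  unfold uk
  push_cast
  rw [neg_div, U_odd k hk]

lemma symTrace_red (k : ℕ) (α β : 𝓞 F) (v : HeightOneSpectrum (𝓞 F)) (p : ℕ) (hp' : p.Prime) (h : Ideal.absNorm v.asIdeal = p) :
    haveI : Fact p.Prime := ⟨hp'⟩
    symTrace k α β v = uk k p (tq (red v p hp' h α) (red v p hp' h β)) := by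
  have hf : Fact p.Prime := ⟨hp'⟩
  unfold symTrace uk
  rw [trace_eq_tq α β v (ZMod p) (resEquiv v p hp' h) (red v p hp' h α) (red v p hp' h β)
    ((resEquiv v p hp' h).apply_symm_apply _) ((resEquiv v p hp' h).apply_symm_apply _), h]

/-- `∑ m l a l` -/
def comb {d : ℕ} (a : Fin d → 𝓞 F) (m : Fin d → ℕ) : 𝓞 F := ∑ l, (m l : 𝓞 F) * a l

lemma red_comb {d : ℕ} (a : Fin d → 𝓞 F) (m : Fin d → ℕ) (v : HeightOneSpectrum (𝓞 F)) (p : ℕ) (hp' : p.Prime) (h : Ideal.absNorm v.asIdeal = p) :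
    red v p hp' h (comb a m) = ∑ l, (m l : ZMod p) * red v p hp' h (a l) := by
  unfold comb
  rw [map_sum]
  apply sum_congr rfl
  intro l _
  rw [map_mul, map_natCast]

lemma mean_sym {d : ℕ} (a b : Fin d → 𝓞 F) (l₀ l₁ : Fin d) (ha0 : a l₀ = 1) (hb0 : b l₀ = 0) (ha1 : a l₁ = 0) (hb1 : b l₁ = 1)
    (k : ℕ) (hk : Odd k) (v : HeightOneSpectrum (𝓞 F)) (p : ℕ) (hp' : p.Prime) (h2 : p ≠ 2) (h : Ideal.absNorm v.asIdeal = p) :
    mean d p (fun m => symTrace k (comb a m) (comb b m) v) = 0 := by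
  have hf : Fact p.Prime := ⟨hp'⟩
  have h3 := mean_odd p hp' h2 (fun l => red v p hp' h (a l)) (fun l => red v p hp' h (b l)) l₀ l₁
    (by simp only [ha0, map_one]) (by simp only [hb0, map_zero]) (by simp only [ha1, map_zero]) (by simp only [hb1, map_one])
    (uk k p) (uk_odd k p hk)
  rw [← h3]
  congr 1
  funext m
  rw [symTrace_red k _ _ v p hp' h, red_comb, red_comb]

lemma symTrace_mod {d : ℕ} (a b : Fin d → 𝓞 F) (k : ℕ) (v : HeightOneSpectrum (𝓞 F)) (p : ℕ) (hp' : p.Prime)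
    (h : Ideal.absNorm v.asIdeal = p) (m : Fin d → ℕ) :
    symTrace k (comb a m) (comb b m) v = symTrace k (comb a (fun i => m i % p)) (comb b (fun i => m i % p)) v := by
  have hf : Fact p.Prime := ⟨hp'⟩
  rw [symTrace_red k _ _ v p hp' h, red_comb, red_comb, symTrace_red k _ _ v p hp' h, red_comb, red_comb]
  simp only [ZMod.natCast_mod]

end

lemma mean_sum {ι : Type} (d p : ℕ) (S : Finset ι) (f : ι → (Fin d → ℕ) → ℝ) :
    mean d p (fun m => ∑ i ∈ S, f i m) = ∑ i ∈ S, mean d p (f i) := by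
  unfold mean
  rw [sum_comm, mul_sum]

/-- **All odd symmetric powers of almost all curves in thin families.** Let `F` be a number field and let `a l`, `b l` (`l < d`) be algebraic
integers of `F` such that the pairs `(1, 0)` and `(0, 1)` occur among the pairs `(a l, b l)`. Let a base `b₀ ≥ 2`, an integer `A ≥ 0` and `δ > 0` be
given. There are `c > 0` and `y₀` such that for all integers `r l`, `K l`, `y` with `2 r l ≤ K l` and `y ≥ y₀` the following holds.

Let `0 ≤ N l < b₀ ^ K l` be arbitrary integers, prescribe for every position `j` a digit `g l j` different from the digit of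
`N l` in base `b₀`, and let `W x` be for every `x` any set of at most `x ^ A` complex functions `w` with `|w (v)| ≤ 1` on the finite places of `F`,
for instance characters of finite order of the ideles of `F`.
If one chooses `r l` of the `K l` positions and replaces the digits of `N l` at these positions, then for all but at most a proportion
`1 / y ^ A` of the choices the elliptic curve `Y ^ 2 = X ^ 3 + α X + β` over `F` with `α = ∑ m l a l`, `β = ∑ m l b l` for the `m l`
obtained has the following property: for all integers `x` with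
`y ≤ x ≤ exp (c r l)` for all `l`, all `w ∈ W x`, all odd `k ≤ x ^ A` and all real `τ` with `|τ| ≤ x ^ A`,
`|∑ w (v) U_k (cos θ_v) (log N v) (N v) ^ (-i τ)| ≤ (k + 1) x ^ (1 / 2 + δ)`, the sum running over the places `v` of `F` with `N v ≤ x` not above `2`. -/
theorem result (F : Type) [Field F] [NumberField F] (b₀ d : ℕ) (a b : Fin d → 𝓞 F) (l₀ l₁ : Fin d) (ha0 : a l₀ = 1) (hb0 : b l₀ = 0)
    (ha1 : a l₁ = 0) (hb1 : b l₁ = 1) (hb : 2 ≤ b₀) (δ : ℝ) (hδ : 0 < δ) (A : ℕ) :
    ∃ c : ℝ, 0 < c ∧ ∃ y₀ : ℕ,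
    ∀ (K r : Fin d → ℕ) (y : ℕ), (∀ l, 2 * r l ≤ K l) → y₀ ≤ y →
    ∀ N : Fin d → ℕ, (∀ l, N l < b₀ ^ K l) → ∀ g : Fin d → ℕ → ℕ, (∀ l j, g l j < b₀ ∧ g l j ≠ digit b₀ j (N l)) →
    ∀ (W : ℕ → Finset (HeightOneSpectrum (𝓞 F) → ℂ)), (∀ x, ∀ w ∈ W x, ∀ v, ‖w v‖ ≤ 1) → (∀ x, (W x).card ≤ x ^ A) →
      (exceptions b₀ K r N g (fun m => ∀ x : ℕ, y ≤ x → (∀ l, (x : ℝ) ≤ Real.exp (c * r l)) → ∀ w ∈ W x,
        ∀ k : ℕ, Odd k → k ≤ x ^ A → ∀ τ : ℝ, |τ| ≤ (x : ℝ) ^ A →
          ‖partialSum k (∑ l, (m l : 𝓞 F) * a l) (∑ l, (m l : 𝓞 F) * b l) w τ x‖ ≤ (k + 1) * (x : ℝ) ^ (1 / 2 + δ)) : ℝ) ≤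
        1 / (y : ℝ) ^ A * ∏ l, ((K l).choose (r l) : ℝ) := by
  classical
  obtain ⟨n, hn⟩ : ∃ n : ℕ, n = finrank ℚ F := ⟨_, rfl⟩
  have hd : 1 ≤ d := Fin.pos l₀
  obtain ⟨c, hc, y₀, h⟩ := mzc_law b₀ d hb hd (δ / 2) (by positivity) A (A + (A + 1)) A
  obtain ⟨x₁, hx₁⟩ := absorb (n + 2 * n) (δ / 2) (by positivity) (by positivity)
  refine ⟨c, hc, y₀ + x₁ + 2, fun K r y hrK hy N hN g hg W hw hW => ?_⟩
  obtain ⟨Z, hZ⟩ : ∃ Z : ℕ → (HeightOneSpectrum (𝓞 F) → ℂ) × ℕ → ℕ → (Fin d → ℕ) → ℂ, Z = fun x q p m =>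
      ∑ v ∈ (pr F x).filter (fun v => Ideal.absNorm v.asIdeal = p), q.1 v * ((symTrace q.2 (comb a m) (comb b m) v * Real.log p : ℝ) : ℂ) := ⟨_, rfl⟩
  have hZ1 : ∀ x, ∀ q ∈ (W x) ×ˢ ((range (x ^ A + 1)).filter Odd), ∀ p ∈ op x, ∀ m, ‖Z x q p m‖ ≤ n * ((q.2 + 1) * (Real.log x + 1)) := by
    intro x q hq p hp' m
    rw [mem_product] at hq
    rw [mem_op] at hp'
    have hp1 : (1 : ℝ) ≤ p := by exact_mod_cast hp'.2.1.one_lt.le
    have hpx : (p : ℝ) ≤ x := by exact_mod_cast hp'.1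
    have hlp : 0 ≤ Real.log p := Real.log_nonneg hp1
    have hlx : Real.log p ≤ Real.log x := Real.log_le_log (by linarith) hpx
    rw [hZ]
    refine (norm_sum_le _ _).trans ?_
    have hone : ∀ v ∈ (pr F x).filter (fun v => Ideal.absNorm v.asIdeal = p),
        ‖q.1 v * ((symTrace q.2 (comb a m) (comb b m) v * Real.log p : ℝ) : ℂ)‖ ≤ (q.2 + 1) * (Real.log x + 1) := by
      intro v hv
      rw [mem_filter, mem_pr] at hv
      rw [norm_mul, Complex.norm_real, Real.norm_eq_abs, abs_mul, abs_of_nonneg hlp]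
      have h3 := symTrace_bound q.2 (comb a m) (comb b m) v hv.1.2
      have h4 := hw x q.1 hq.1 v
      calc ‖q.1 v‖ * (|symTrace q.2 (comb a m) (comb b m) v| * Real.log p) ≤ 1 * ((q.2 + 1) * (Real.log x + 1)) := by
            gcongr
            linarith
        _ = _ := one_mul _
    refine (sum_le_sum hone).trans ?_
    rw [sum_const, nsmul_eq_mul]
    have h5 : (((pr F x).filter (fun v => Ideal.absNorm v.asIdeal = p)).card : ℝ) ≤ n := by
      rw [hn]
      exact_mod_cast card_fiber_le (F := F) x p hp'.2.1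
    have h6 : 0 ≤ Real.log x := hlp.trans hlx
    gcongr
  have h2 := h K r y hrK (by omega) N hN g hg ((HeightOneSpectrum (𝓞 F) → ℂ) × ℕ) (fun x => (W x) ×ˢ ((range (x ^ A + 1)).filter Odd)) (by
      intro x hx
      rw [card_product, pow_add]
      apply Nat.mul_le_mul (hW x)
      refine (card_filter_le _ _).trans ?_
      rw [card_range, pow_succ]
      have : 1 ≤ x ^ A := Nat.one_le_pow _ _ (by omega)
      nlinarith) Z (by
      intro x q p m hp'
      rw [hZ]
      simp only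
      apply sum_congr rfl
      intro v hv
      rw [mem_filter] at hv
      rw [symTrace_mod a b q.2 v p hp' hv.2]) (fun x q => (q.2 + 1) * (n * Real.sqrt x * (Real.log x + 1))) (by
      intro x hx q _
      have : 0 ≤ Real.log x := Real.log_natCast_nonneg x
      positivity) ?_ ?_ ?_ ?_
    (fun m => ∀ x : ℕ, y ≤ x → (∀ l, (x : ℝ) ≤ Real.exp (c * r l)) → ∀ w ∈ W x,
        ∀ k : ℕ, Odd k → k ≤ x ^ A → ∀ τ : ℝ, |τ| ≤ (x : ℝ) ^ A →
          ‖partialSum k (∑ l, (m l : 𝓞 F) * a l) (∑ l, (m l : 𝓞 F) * b l) w τ x‖ ≤ (k + 1) * (x : ℝ) ^ (1 / 2 + δ)) ?_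
  · unfold exceptions
    exact h2
  · -- the bound
    intro x hx q hq p hp' m
    refine (hZ1 x q hq p hp' m).trans ?_
    have hx1 : (1 : ℝ) ≤ x := by exact_mod_cast (by omega : 1 ≤ x)
    have hlx0 : 0 ≤ Real.log x := Real.log_natCast_nonneg x
    have hs1 : 1 ≤ Real.sqrt x := Real.one_le_sqrt.2 hx1
    have h5 : (0 : ℝ) ≤ n * ((q.2 + 1) * (Real.log x + 1)) := by positivity
    calc (n : ℝ) * ((q.2 + 1) * (Real.log x + 1)) ≤ (n * ((q.2 + 1) * (Real.log x + 1))) * Real.sqrt x := le_mul_of_one_le_right h5 hs1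
      _ = _ := by ring
  · intro x hx q hq p hp'
    rw [mem_product, mem_filter] at hq
    rw [mem_op] at hp'
    have e : (fun m : Fin d → ℕ => (Z x q p m).re) = fun m => ∑ v ∈ (pr F x).filter (fun v => Ideal.absNorm v.asIdeal = p),
        ((q.1 v).re * Real.log p) * symTrace q.2 (comb a m) (comb b m) v := by
      funext m
      rw [hZ]
      simp only
      rw [Complex.re_sum]
      apply sum_congr rfl
      intro v _
      rw [Complex.re_mul_ofReal]
      ring
    rw [e, mean_sum]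
    apply sum_eq_zero
    intro v hv
    rw [mem_filter] at hv
    rw [mean_mul, mean_sym a b l₀ l₁ ha0 hb0 ha1 hb1 q.2 hq.2.2 v p hp'.2.1 hp'.2.2 hv.2, mul_zero]
  · intro x hx q hq p hp'
    rw [mem_product, mem_filter] at hq
    rw [mem_op] at hp'
    have e : (fun m : Fin d → ℕ => (Z x q p m).im) = fun m => ∑ v ∈ (pr F x).filter (fun v => Ideal.absNorm v.asIdeal = p),
        ((q.1 v).im * Real.log p) * symTrace q.2 (comb a m) (comb b m) v := by
      funext m
      rw [hZ]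
      simp only
      rw [Complex.im_sum]
      apply sum_congr rfl
      intro v _
      rw [Complex.im_mul_ofReal]
      ring
    rw [e, mean_sum]
    apply sum_eq_zero
    intro v hv
    rw [mem_filter] at hv
    rw [mean_mul, mean_sym a b l₀ l₁ ha0 hb0 ha1 hb1 q.2 hq.2.2 v p hp'.2.1 hp'.2.2 hv.2, mul_zero]
  · -- the variance
    intro x hx q hq
    have hx0 : (0 : ℝ) ≤ x := Nat.cast_nonneg x
    have hlx0 : 0 ≤ Real.log x := Real.log_natCast_nonneg x
    have hone : ∀ p ∈ op x, mean d p (fun m => ‖Z x q p m‖ ^ 2) ≤ (n * ((q.2 + 1) * (Real.log x + 1))) ^ 2 := by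
      intro p hp'
      have h3 := mean_mono d p (fun m => ‖Z x q p m‖ ^ 2) (fun _ => (n * ((q.2 + 1) * (Real.log x + 1))) ^ 2) (fun m => by
        exact pow_le_pow_left₀ (norm_nonneg _) (hZ1 x q hq p hp' m) 2)
      refine h3.trans (le_of_eq ?_)
      rw [mem_op] at hp'
      exact mean_const d p hp'.2.1.one_lt.le _
    refine (sum_le_sum hone).trans ?_
    rw [sum_const, nsmul_eq_mul]
    calc ((op x).card : ℝ) * (n * ((q.2 + 1) * (Real.log x + 1))) ^ 2 ≤ x * (n * ((q.2 + 1) * (Real.log x + 1))) ^ 2 :=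
          mul_le_mul_of_nonneg_right (Pool.Agent.X22.ND.cardop_le x) (by positivity)
      _ = ((q.2 + 1) * (n * Real.sqrt x * (Real.log x + 1))) ^ 2 := by
          have hsx : Real.sqrt x * Real.sqrt x = x := Real.mul_self_sqrt hx0
          calc x * (n * ((q.2 + 1) * (Real.log x + 1))) ^ 2 = (Real.sqrt x * Real.sqrt x) * (n * ((q.2 + 1) * (Real.log x + 1))) ^ 2 := by rw [hsx]
            _ = _ := by ring
  · -- the conclusion
    intro m hm x hyx hxr w hwx k hk hkx τ hτ
    have hx2 : 2 ≤ x := by omega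
    have hx0 : (0 : ℝ) < x := by exact_mod_cast (by omega : 0 < x)
    have hx1 : (1 : ℝ) ≤ x := by exact_mod_cast (by omega : 1 ≤ x)
    have hlx0 : 0 ≤ Real.log x := Real.log_natCast_nonneg x
    obtain ⟨T, hT⟩ : ∃ T : HeightOneSpectrum (𝓞 F) → ℂ, T = fun v => w v * ((symTrace k (comb a m) (comb b m) v * Real.log (Ideal.absNorm v.asIdeal) : ℝ) : ℂ) *
      Complex.exp (((-(τ * Real.log (Ideal.absNorm v.asIdeal)) : ℝ) : ℂ) * Complex.I) := ⟨_, rfl⟩
    have e1 : partialSum k (∑ l, (m l : 𝓞 F) * a l) (∑ l, (m l : 𝓞 F) * b l) w τ x = ∑ v ∈ pr F x, T v := by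
      unfold partialSum
      rw [hT]
      exact finsum_mem_eq_finite_toFinset_sum _ (Pool.Agent.X22.NF.finite_pr F x)
    have e2 : ∀ p ∈ op x, ∑ v ∈ (pr F x).filter (fun v => Ideal.absNorm v.asIdeal = p), T v = Z x (w, k) p m * hp τ p := by
      intro p hp'
      rw [hZ, sum_mul]
      apply sum_congr rfl
      intro v hv
      rw [mem_filter] at hv
      rw [hT]
      simp only
      rw [hv.2]
      unfold Pool.Agent.X22.ND.hp
      rfl
    have h3 := splitC (F := F) x T ((k + 1) * Real.log x) (by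
      intro v hv
      rw [mem_pr] at hv
      rw [hT]
      simp only
      rw [norm_mul, norm_mul, Complex.norm_exp_ofReal_mul_I, mul_one, Complex.norm_real, Real.norm_eq_abs, abs_mul]
      have hN1 : (1 : ℝ) ≤ (Ideal.absNorm v.asIdeal : ℝ) := by
        have : Ideal.absNorm v.asIdeal ≠ 0 := by
          rw [Ne, Ideal.absNorm_eq_zero_iff]
          exact v.ne_bot
        exact_mod_cast Nat.one_le_iff_ne_zero.2 this
      have hNx : (Ideal.absNorm v.asIdeal : ℝ) ≤ x := by exact_mod_cast hv.1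
      have hl0 : 0 ≤ Real.log (Ideal.absNorm v.asIdeal) := Real.log_nonneg hN1
      have hl : Real.log (Ideal.absNorm v.asIdeal) ≤ Real.log x := Real.log_le_log (by linarith) hNx
      rw [abs_of_nonneg hl0]
      calc ‖w v‖ * (|symTrace k (comb a m) (comb b m) v| * Real.log (Ideal.absNorm v.asIdeal)) ≤ 1 * ((k + 1) * Real.log x) := by
            have h4 := symTrace_bound k (comb a m) (comb b m) v hv.2
            have h6 := hw x w hwx v
            gcongr
        _ = (k + 1) * Real.log x := one_mul _) (by positivity)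
    rw [sum_congr rfl e2, ← e1, ← hn] at h3
    have h4 := hm x hyx hxr (w, k) (by
      rw [mem_product, mem_filter, mem_range]
      exact ⟨hwx, by omega, hk⟩) τ hτ
    have hsq : (Nat.sqrt x : ℝ) ≤ Real.sqrt x := Real.nat_sqrt_le_real_sqrt
    have hs1 : 1 ≤ Real.sqrt x := Real.one_le_sqrt.2 hx1
    have h5 : (n : ℝ) * (Nat.sqrt x + 1) * ((k + 1) * Real.log x) ≤ (k + 1) * (2 * n * Real.sqrt x * (Real.log x + 1)) := by
      calc (n : ℝ) * (Nat.sqrt x + 1) * ((k + 1) * Real.log x) ≤ n * (Real.sqrt x + Real.sqrt x) * ((k + 1) * (Real.log x + 1)) := by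
            gcongr
            linarith
        _ = _ := by ring
    have h6 := hx₁ x (by omega)
    have hpow : (x : ℝ) ^ (1 / 2 + δ) = Real.sqrt x * ((x : ℝ) ^ (δ / 2) * (x : ℝ) ^ (δ / 2)) := by
      rw [← Real.rpow_add hx0, Real.sqrt_eq_rpow, ← Real.rpow_add hx0]
      congr 1
      ring
    have hge1 : (1 : ℝ) ≤ (x : ℝ) ^ (δ / 2) := Real.one_le_rpow hx1 (by positivity)
    calc ‖partialSum k (∑ l, (m l : 𝓞 F) * a l) (∑ l, (m l : 𝓞 F) * b l) w τ x‖ ≤ ‖∑ p ∈ op x, Z x (w, k) p m * hp τ p‖ +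
          ‖partialSum k (∑ l, (m l : 𝓞 F) * a l) (∑ l, (m l : 𝓞 F) * b l) w τ x - ∑ p ∈ op x, Z x (w, k) p m * hp τ p‖ := norm_le_norm_add_norm_sub' _ _
      _ ≤ (k + 1) * (n * Real.sqrt x * (Real.log x + 1)) * (x : ℝ) ^ (δ / 2) + (k + 1) * (2 * n * Real.sqrt x * (Real.log x + 1)) := add_le_add h4 (h3.trans h5)
      _ ≤ (k + 1) * (n * Real.sqrt x * (Real.log x + 1)) * (x : ℝ) ^ (δ / 2) + (k + 1) * (2 * n * Real.sqrt x * (Real.log x + 1)) * (x : ℝ) ^ (δ / 2) := by
          have : 0 ≤ ((k : ℝ) + 1) * (2 * n * Real.sqrt x * (Real.log x + 1)) := by positivity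
          nlinarith
      _ = (k + 1) * (Real.sqrt x * (((n + 2 * n) * (Real.log x + 1)) * (x : ℝ) ^ (δ / 2))) := by ring
      _ ≤ (k + 1) * (Real.sqrt x * ((x : ℝ) ^ (δ / 2) * (x : ℝ) ^ (δ / 2))) := by gcongr
      _ = _ := by rw [hpow]

end Pool.Agent.Results.MP_bf61d2_nt.FewDigitSymmetricPowers
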