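import Pool.Agent.X288.AR.Thm
import Pool.Agent.X288.L2.Edge
import Pool.Agent.X288.L2.Inst

/-!
# All Artin twists of a modular elliptic curve on the edge of absolute convergence

`E : y² = x³ + a x + b` is an elliptic curve over `ℚ` with a newform (`IsModular`; by the modularity
theorem this is every elliptic curve over `ℚ`, and for the quadratic twists of `X_0(11)` and `X_0(14)` it
is proved here).  For a representation `ρ` of `Gal(ℚ̄/ℚ)` on `ℂⁿ` with open kernel, `L(E ⊗ ρ, s)` is the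
Euler product over the primes whose factor is, for all but finitely many `p`,
`det(1 - a_p p^{-s} ρ(Frob_p⁻¹) + p^{1 - 2s} ρ(Frob_p⁻¹)²)⁻¹`, `a_p = p + 1 - #E(𝔽_p)`.  For `ρ` induced from
the trivial character of `Gal(ℚ̄/F)` it is `L(E/F, s)`, and these functions are the products of the
`L(E ⊗ ρ_i, s)` for the irreducible constituents `ρ_i` of `ρ`.  The continuation of `L(E ⊗ ρ, s)` is not
known in general.

The theorem bounds `log |L(E ⊗ ρ, s)|` near the edge `Re s = 3/2` of the half plane of absolute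
convergence, and with it the zeros and poles of all meromorphic continuations, for all Artin
representations together.  In particular: **among all irreducible `ρ` and all points of the edge there is
at most one pair with a zero or a pole; it is simple, and for it the point is `s = 3/2`, `ρ` is self-dual
and of dimension one or two.**

The proof uses the theorem of Rankin and Selberg for the newform (the mean of `a_p²/p` is one) instead of
Hasse's bound `a_p² ≤ 4 p`, the bound `|a_p| ≤ 2√p` for the strict inequality in dimension at least three,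
Chebotarev's theorem with heights, and the orthogonality of the characters.
-/

set_option autoImplicit false

namespace Pool.Agent.Results.MP_bf61d2_nt.ModularArtinTwists

open Complex Filter Topology NumberField IsDedekindDomain Polynomial
open Pool.Agent.Y722.EP (IsModular)

/-- The absolute Galois group of `F`. -/
abbrev GalGroup (F : Type) [Field F] : Type := Gal(AlgebraicClosure F/F)

/-- The integral Weierstrass equation `y² = x³ + a x + b` over `F`. -/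
def curve (F : Type) [Field F] (a b : ℤ) : WeierstrassCurve (𝓞 F) where
  a₁ := 0
  a₂ := 0
  a₃ := 0
  a₄ := a
  a₆ := b

/-- The number of solutions of the affine Weierstrass equation of `V` with coordinates in `R`. -/
noncomputable def affineCount {R : Type} [CommRing R] (V : WeierstrassCurve R) : ℕ :=
  Nat.card {P : R × R // P.2 ^ 2 + V.a₁ * P.1 * P.2 + V.a₃ * P.2 =
    P.1 ^ 3 + V.a₂ * P.1 ^ 2 + V.a₄ * P.1 + V.a₆}

/-- `a_v = q_v + 1 - #E(k_v)`, `k_v` the residue field of `v` and `q_v` its number of elements; there is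
one point at infinity. -/
noncomputable def frobTrace {F : Type} [Field F] [NumberField F] (W : WeierstrassCurve (𝓞 F))
    (v : HeightOneSpectrum (𝓞 F)) : ℤ :=
  (Ideal.absNorm v.asIdeal : ℤ) + 1 - ((affineCount (W.map (Ideal.Quotient.mk v.asIdeal)) : ℤ) + 1)

/-- `σ` is a Frobenius element at the prime `v` of `F`: there is a maximal ideal `Q` above `v` of the
ring of all algebraic integers with `σ x ≡ x ^ q_v` modulo `Q` for all `x`. -/
def IsFrobenius {F : Type} [Field F] [NumberField F] (v : HeightOneSpectrum (𝓞 F))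
    (σ : GalGroup F) : Prop :=
  ∃ Q : Ideal (𝓞 (AlgebraicClosure F)), Q.IsMaximal ∧
    Q.comap (algebraMap (𝓞 F) (𝓞 (AlgebraicClosure F))) = v.asIdeal ∧
    ∀ x : 𝓞 (AlgebraicClosure F), σ • x - x ^ Ideal.absNorm v.asIdeal ∈ Q

/-- `ρ` is an Artin representation of `F`: it is trivial on an open subgroup of `Gal(F̄/F)`. -/
def IsArtin {F : Type} [Field F] [NumberField F] {n : ℕ}
    (ρ : Representation ℂ (GalGroup F) (Fin n → ℂ)) : Prop :=
  ∃ U : Subgroup (GalGroup F), IsOpen (U : Set (GalGroup F)) ∧ ∀ u ∈ U, ρ u = 1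

/-- The polynomials `B v` are the Euler factors of `E ⊗ ρ` at all but finitely many primes `v`:
`B_v(z) = det(1 - a_v z ρ(Frob_v⁻¹) + q_v z² ρ(Frob_v⁻¹)²)`. -/
def IsEulerFactor {F : Type} [Field F] [NumberField F] (W : WeierstrassCurve (𝓞 F)) {n : ℕ}
    (ρ : Representation ℂ (GalGroup F) (Fin n → ℂ))
    (B : HeightOneSpectrum (𝓞 F) → ℂ[X]) : Prop :=
  ∀ᶠ v in cofinite, ∀ σ : GalGroup F, IsFrobenius v σ → ∀ z : ℂ,
    (B v).eval z = LinearMap.det (1 - ((frobTrace W v : ℂ) * z) • ρ σ⁻¹ +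
      ((Ideal.absNorm v.asIdeal : ℂ) * z ^ 2) • (ρ σ⁻¹) ^ 2)

/-- The Euler product `∏_v B_v(q_v^{-s})⁻¹`. -/
noncomputable def eulerProduct {F : Type} [Field F] [NumberField F]
    (B : HeightOneSpectrum (𝓞 F) → ℂ[X]) (s : ℂ) : ℂ :=
  ∏' v : HeightOneSpectrum (𝓞 F), ((B v).eval ((Ideal.absNorm v.asIdeal : ℂ) ^ (-s)))⁻¹

/-- `log |L(E ⊗ ρ, 3/2 + iτ + ε)| / log (1/ε)`, which tends to minus the order of the function at
`3/2 + iτ` if there is a meromorphic continuation to a neighbourhood. -/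
noncomputable def size {F : Type} [Field F] [NumberField F]
    (B : HeightOneSpectrum (𝓞 F) → ℂ[X]) (τ ε : ℝ) : ℝ :=
  Real.log ‖eulerProduct B (3 / 2 + τ * I + ε)‖ / Real.log (1 / ε)

open Classical in
/-- The pairing `⟨k, l⟩`: half of `dim Hom(ρ_k, ρ_l)` if `τ_k = τ_l`, plus half of `dim Hom(ρ_k, ρ_l^∨)` if
`τ_k = -τ_l`. -/
noncomputable def pairing {F : Type} [Field F] {κ : Type} {n : κ → ℕ}
    (ρ : ∀ k, Representation ℂ (GalGroup F) (Fin (n k) → ℂ)) (τ : κ → ℝ) (k l : κ) : ℝ :=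
  (if τ k = τ l then (Module.finrank ℂ ((ρ k).IntertwiningMap (ρ l)) : ℝ) / 2 else 0) +
  (if τ k = -τ l then (Module.finrank ℂ ((ρ k).IntertwiningMap (ρ l).dual) : ℝ) / 2 else 0)

/-- **All Artin twists of a modular elliptic curve on the edge `Re s = 3/2`.**

Let `E : y² = x³ + a x + b` be a modular elliptic curve over `ℚ`, and for `k` in a finite set let `ρ_k` be
an Artin representation of `Gal(ℚ̄/ℚ)` of dimension `n_k`, `τ_k ∈ ℝ`, `s_k = 3/2 + iτ_k`, and `L_k` the Euler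
product of `E ⊗ ρ_k` with arbitrary polynomials, not zero at `p^{-s_k}`, as factors at finitely many
primes.  Write `x_k(ε) = log |L_k(s_k + ε)| / log(1/ε)`.

1. `L_k(s_k + ε) ≠ 0` for small `ε > 0`.
2. (In 2., 3. and 4. nothing is assumed about continuation.)  For all `C` and `η > 0` and all
sufficiently small `ε > 0`: `(∑_k c_k x_k(ε))² ≤ ∑_{k,l} c_k c_l ⟨k, l⟩ + η` for all real `c_k`, `|c_k| ≤ C`.
3. If `ρ_k` is irreducible, and `τ_k ≠ 0` or `n_k ≥ 3` or `ρ_k` is not self-dual, then there is an `A < 1`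
with `|x_k(ε)| ≤ A` for all small `ε > 0`.
4. If the `ρ_k` are irreducible, and pairwise inequivalent for equal heights, then
`∑_k x_k(ε)² ≤ 1 + η` for all small `ε > 0`.
5. If the `L_k` have meromorphic continuations to neighbourhoods of the points `s_k`, then these have
finite orders `m_k` at `s_k`, and
* `(∑_k c_k m_k)² ≤ ∑_{k,l} c_k c_l ⟨k, l⟩` for all real `c_k`;
* `m_k = 0` if `ρ_k` is irreducible, and `τ_k ≠ 0` or `n_k ≥ 3` or `ρ_k` is not self-dual;
* `∑_k |m_k| ≤ 1` if the `ρ_k` are irreducible, and pairwise inequivalent for equal heights: at most one of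
the functions has a zero or a pole, and it is simple.

The quadratic twists of `X_0(11) : y² = x³ - 13392 x - 1080432` and of `X_0(14) : y² = x³ + 5805 x - 285714`
are modular. -/
theorem result :
    (∀ a b : ℤ, 4 * a ^ 3 + 27 * b ^ 2 ≠ 0 → IsModular a b →
      ∀ (κ : Type) [Fintype κ] (n : κ → ℕ)
        (ρ : ∀ k, Representation ℂ (GalGroup ℚ) (Fin (n k) → ℂ)) (τ : κ → ℝ)
        (B : κ → HeightOneSpectrum (𝓞 ℚ) → ℂ[X]), (∀ k, IsArtin (ρ k)) →
        (∀ k, IsEulerFactor (curve ℚ a b) (ρ k) (B k)) →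
        (∀ k, ∀ v, (B k v).eval ((Ideal.absNorm v.asIdeal : ℂ) ^ (-(3 / 2 + τ k * I : ℂ))) ≠ 0) →
      (∀ k, ∀ᶠ ε : ℝ in 𝓝[>] 0, eulerProduct (B k) (3 / 2 + τ k * I + ε) ≠ 0) ∧
      (∀ C η : ℝ, 0 < η → ∀ᶠ ε : ℝ in 𝓝[>] 0, ∀ c : κ → ℝ, (∀ k, |c k| ≤ C) →
        (∑ k, c k * size (B k) (τ k) ε) ^ 2 ≤ (∑ k, ∑ l, c k * c l * pairing ρ τ k l) + η) ∧
      (∀ k, (ρ k).IsIrreducible → (τ k ≠ 0 ∨ 3 ≤ n k ∨ IsEmpty ((ρ k).Equiv (ρ k).dual)) →
        ∃ A : ℝ, A < 1 ∧ ∀ᶠ ε : ℝ in 𝓝[>] 0, |size (B k) (τ k) ε| ≤ A) ∧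
      ((∀ k, (ρ k).IsIrreducible) →
        (∀ k l, k ≠ l → τ k = τ l → IsEmpty ((ρ k).Equiv (ρ l))) →
        ∀ η : ℝ, 0 < η → ∀ᶠ ε : ℝ in 𝓝[>] 0, ∑ k, size (B k) (τ k) ε ^ 2 ≤ 1 + η) ∧
      (∀ Λ : κ → ℂ → ℂ, (∀ k, MeromorphicAt (Λ k) (3 / 2 + τ k * I) ∧
        ∀ᶠ s in 𝓝 (3 / 2 + τ k * I : ℂ), 3 / 2 < s.re → Λ k s = eulerProduct (B k) s) →
        ∃ m : κ → ℤ, (∀ k, meromorphicOrderAt (Λ k) (3 / 2 + τ k * I) = m k) ∧
          (∀ c : κ → ℝ, (∑ k, c k * m k) ^ 2 ≤ ∑ k, ∑ l, c k * c l * pairing ρ τ k l) ∧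
          (∀ k, (ρ k).IsIrreducible → (τ k ≠ 0 ∨ 3 ≤ n k ∨ IsEmpty ((ρ k).Equiv (ρ k).dual)) →
            m k = 0) ∧
          ((∀ k, (ρ k).IsIrreducible) →
            (∀ k l, k ≠ l → τ k = τ l → IsEmpty ((ρ k).Equiv (ρ l))) → ∑ k, |m k| ≤ 1))) ∧
    ∀ g : ℤ, g ≠ 0 → IsModular (-13392 * g ^ 2) (-1080432 * g ^ 3) ∧
      IsModular (5805 * g ^ 2) (-285714 * g ^ 3) := by
  refine ⟨fun a b hab hmod κ _ n ρ τ B hρ hB hB0 => ?_,
    fun g hg => ⟨Pool.Agent.X288.L2.modular11 hg, Pool.Agent.X288.L2.modular14 hg⟩⟩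
  obtain ⟨α, h1, h2', h3⟩ := X288.AR.ec_main' ℚ (X288.AR.curve ℚ a b)
    (X288.AR.curve_Δ_ne hab) n ρ B hB
  have h2 : ∀ᶠ v in cofinite, (∑ j, α v j).im = 0 := h2'.mono fun v hv => by
    rw [hv, Complex.intCast_im]
  have hsec : ∃ C : ℝ, ∀ᶠ ε : ℝ in 𝓝[>] 0, (W540.BE.EP (W540.BE.nm ℚ) ε fun v =>
      W353.L1.tr (1 / 2) α v ^ 2) ≤ 1 * W353.TP.LL ε + C := by
    have h := X288.AR.tr_sec hab hmod h1 h2'
    rw [X288.L2.finrank_QQ] at h
    exact h
  have hs : ∀ x : ℝ, (((1 / 2 : ℝ) : ℂ) + 1 + x * I) = 3 / 2 + x * I := by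
    intro x
    push_cast
    ring
  have hB0' : ∀ k, ∀ v, (B k v).eval (((W540.BE.nm ℚ v : ℕ) : ℂ) ^
      (-(((1 / 2 : ℝ) : ℂ) + 1 + τ k * I : ℂ))) ≠ 0 := by
    intro k v
    rw [hs]
    exact hB0 k v
  have hL : ∀ k, ∀ s : ℂ, (1 / 2 : ℝ) + 1 < s.re → eulerProduct (B k) s =
      ∏' v, ((B k v).eval (((W540.BE.nm ℚ v : ℕ) : ℂ) ^ (-s)))⁻¹ := fun k s _ => rfl
  have hx : ∀ k ε, W353.L1.xs (1 / 2) τ (fun k => eulerProduct (B k)) k ε =
      size (B k) (τ k) ε := by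
    intro k ε
    unfold W353.L1.xs size
    rw [hs]
  have hne0 : ∀ k, ∀ᶠ ε : ℝ in 𝓝[>] 0, eulerProduct (B k) (3 / 2 + τ k * I + ε) ≠ 0 := by
    intro k
    have h4 := X288.AR.ne_all (1 / 2) α h1 h2 ρ hρ τ B h3 hB0' (fun k => eulerProduct (B k)) hL k
    simp only [hs] at h4
    exact h4
  have hgram : ∀ C η : ℝ, 0 < η → ∀ᶠ ε : ℝ in 𝓝[>] 0, ∀ c : κ → ℝ, (∀ k, |c k| ≤ C) →
        (∑ k, c k * size (B k) (τ k) ε) ^ 2 ≤
          (∑ k, ∑ l, c k * c l * pairing ρ τ k l) + η := by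
    intro C η hη
    have h4 := X288.AR.gram_all (1 / 2) α h1 h2 hsec ρ hρ τ B h3 hB0'
      (fun k => eulerProduct (B k)) hL C hη
    simp only [hx] at h4
    exact h4
  have hstrict : ∀ k, (ρ k).IsIrreducible →
      (τ k ≠ 0 ∨ 3 ≤ n k ∨ IsEmpty ((ρ k).Equiv (ρ k).dual)) →
      ∃ A : ℝ, A < 1 ∧ ∀ᶠ ε : ℝ in 𝓝[>] 0, |size (B k) (τ k) ε| ≤ A := by
    intro k hk h
    have h4 := X288.AR.strict_all le_rfl (1 / 2) α h1 h2 hsec ρ hρ τ B h3 hB0'
      (fun k => eulerProduct (B k)) hL hk h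
    simp only [hx] at h4
    exact h4
  have hdisj : (∀ k, (ρ k).IsIrreducible) →
      (∀ k l, k ≠ l → τ k = τ l → IsEmpty ((ρ k).Equiv (ρ l))) →
      ∀ η : ℝ, 0 < η → ∀ᶠ ε : ℝ in 𝓝[>] 0, ∑ k, size (B k) (τ k) ε ^ 2 ≤ 1 + η := by
    intro hirr hne η hη
    have h4 := X288.AR.disj_all (1 / 2) α h1 h2 hsec ρ hρ τ B h3 hB0'
      (fun k => eulerProduct (B k)) hL hirr hne hη
    simp only [hx] at h4
    exact h4
  refine ⟨hne0, hgram, hstrict, hdisj, fun Λ hΛ => ?_⟩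
  have hord : ∀ k, ∃ m : ℤ, meromorphicOrderAt (Λ k) (3 / 2 + τ k * I) = m ∧
      Tendsto (size (B k) (τ k)) (𝓝[>] 0) (𝓝 (-(m : ℝ))) := by
    intro k
    have hev : ∀ᶠ ε : ℝ in 𝓝[>] 0, Λ k (3 / 2 + τ k * I + ε) =
        eulerProduct (B k) (3 / 2 + τ k * I + ε) := by
      have h4 := (Pool.Agent.H341R2.path_tendsto' (3 / 2 + τ k * I : ℂ)).eventually (hΛ k).2
      filter_upwards [h4, self_mem_nhdsWithin] with ε h5 h6
      have hε : (0 : ℝ) < ε := h6
      refine h5 ?_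
      have e : (3 / 2 + (τ k : ℂ) * I + (ε : ℂ)).re = 3 / 2 + ε := by simp
      rw [e]
      linarith
    have hne : ∀ᶠ ε : ℝ in 𝓝[>] 0, Λ k (3 / 2 + τ k * I + ε) ≠ 0 := by
      filter_upwards [hev, hne0 k] with ε h5 h6
      rw [h5]
      exact h6
    obtain ⟨m, hm1, hm2⟩ := W540.BE.order_of_size (hΛ k).1 hne
    refine ⟨m, hm1, hm2.congr' ?_⟩
    filter_upwards [hev] with ε h5
    rw [h5]
    rfl
  choose m hm1 hm2 using hord
  refine ⟨m, hm1, fun c => ?_, fun k hk h => ?_, fun hirr hne => ?_⟩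
  · refine le_of_forall_pos_le_add fun η hη => ?_
    have hlim : Tendsto (fun ε : ℝ => (∑ k, c k * size (B k) (τ k) ε) ^ 2) (𝓝[>] 0)
        (𝓝 ((∑ k, c k * (-(m k : ℝ))) ^ 2)) :=
      (tendsto_finsetSum _ fun k _ => ((hm2 k).const_mul (c k))).pow 2
    have e1 : (∑ k, c k * (-(m k : ℝ))) ^ 2 = (∑ k, c k * m k) ^ 2 := by
      have : ∑ k, c k * (-(m k : ℝ)) = -∑ k, c k * m k := by
        rw [← Finset.sum_neg_distrib]
        exact Finset.sum_congr rfl fun k _ => by ring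
      rw [this, neg_sq]
    rw [e1] at hlim
    refine le_of_tendsto hlim ?_
    filter_upwards [hgram (∑ k, |c k|) η hη] with ε h4
    exact h4 c fun k => Finset.single_le_sum (f := fun k => |c k|) (fun k _ => abs_nonneg _)
      (Finset.mem_univ k)
  · obtain ⟨A, hA, h4⟩ := hstrict k hk h
    have h5 : |(-(m k : ℝ))| ≤ A := le_of_tendsto (hm2 k).abs h4
    rw [abs_neg] at h5
    by_contra hmk
    have h6 : (1 : ℝ) ≤ |((m k : ℤ) : ℝ)| := by exact_mod_cast Int.one_le_abs hmk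
    linarith
  · have h5 : ∑ k, (m k : ℝ) ^ 2 ≤ 1 := by
      refine le_of_forall_pos_le_add fun η hη => ?_
      have hlim : Tendsto (fun ε : ℝ => ∑ k, size (B k) (τ k) ε ^ 2) (𝓝[>] 0)
          (𝓝 (∑ k, (-(m k : ℝ)) ^ 2)) :=
        tendsto_finsetSum _ fun k _ => (hm2 k).pow 2
      simp only [neg_sq] at hlim
      exact le_of_tendsto hlim (hdisj hirr hne η hη)
    have h6 : ∑ k, (m k) ^ 2 ≤ 1 := by exact_mod_cast h5
    refine le_trans (Finset.sum_le_sum fun k _ => ?_) h6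
    rw [← sq_abs]
    rcases eq_or_ne (m k) 0 with h7 | h7
    · rw [h7]
      norm_num
    · have h8 := Int.one_le_abs h7
      nlinarith

end Pool.Agent.Results.MP_bf61d2_nt.ModularArtinTwists
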