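import Mathlib
import Pool.Agent.X298.EC.Fin

/-!
# The Hasse–Weil conjecture over all the intermediate fields of a Galois extension and at all points at once

Let `K` be a number field, `E : y² = x³ + A x + B` an elliptic curve with `A, B ∈ 𝓞_K`, `F/K` a finite Galois extension with
group `G`, and `S` a set of places of `K` which contains the places of bad reduction. For a conjugacy class `C` of `G` and
`s₀ ∈ ℂ`, `γ > π/2`, `T > 0` consider the sum over the prime powers `v^k`, `v ∉ S`,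

  `S_C(s₀, T) = ∑_v ∑_{k ≥ 1} (α_v^k + β_v^k) m_C(v^k) q_v^{-k s₀} e^{iγ k log q_v / T} / (k Γ(1 + k log q_v / T))`,

`m_C(v^k)` the proportion of the elements of `C` in the coset `Frob_v^k` of the inertia group. We show:

* `S_C(s₀, T)` converges absolutely for all `s₀ ∈ ℂ`, `T > 0`;
* for every class function `φ` such that `L_S(E ⊗ φ, s) = exp ∑ (α_v^k + β_v^k) φ(v^k) q_v^{-ks} / k` has a meromorphic
  continuation `Λ` to `Re s > ρ`, with order `m` and leading coefficient `e^{r₀}` at `s₀`: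
  `∑_C φ(C) S_C(s₀, T) = r₀ - m (log T - Λ(γ)) + O(1/T)`;
* for linear combinations `φ = ∑ a_i φ_i` of such functions (for instance for all class functions, if this is known for
  the irreducible characters of `G`): `∑_C φ(C) S_C(s₀, T) / log T → - ∑ a_i ord_{s₀} L_S(E ⊗ φ_i, s)`;
* if the `L`-functions `L_S(E / F^H, s)` of `E` over the intermediate fields `F^H` (given by the permutation characters `π_H`,
  Artin) are meromorphic for `Re s > ρ`, then **all of them are holomorphic for `Re s > ρ` if and only if** for all `H` and `s₀`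
  the real parts of the sums for `π_H` are bounded above for `T → ∞`, and if and only if for all `H` and `s₀` there is `c < 1`
  such that they are at most `c log T` for arbitrarily large `T`.

There are no hypotheses on zeros; the sums do not see the zeros and poles to the right of `s₀`.
-/

set_option autoImplicit false

open Filter Topology Complex
open IsDedekindDomain NumberField

namespace Pool.Agent.Results.MP_bf61d2_nt.PolesOverIntermediateFields

open Pool.Agent.X298.ST Pool.Agent.X298.EC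

/-- **The Hasse–Weil conjecture over all the intermediate fields, and rotated sums over Frobenius classes.** -/
theorem result {K F : Type} [Field K] [NumberField K] [Field F] [NumberField F] [Algebra K F] [IsGalois K F]
    (S : Set (HeightOneSpectrum (𝓞 K))) (P : Places S → Ideal (𝓞 F)) (_hP : IsAbove P)
    (A B : 𝓞 K) (α β : Places S → ℂ) (hE : IsFrobenius A B α β) (γ : ℝ) (hγ : Real.pi / 2 < γ) :
    (∀ (f : (F ≃ₐ[K] F) → ℂ) (s₀ : ℂ) (T : ℝ), 0 < T → Summable fun x => ‖pTerm P α β f γ s₀ T x‖) ∧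
    (∀ (φ : ConjClasses (F ≃ₐ[K] F) → ℂ) (ρ : ℝ) (Λ : ℂ → ℂ),
      IsL P α β ρ (fun g => φ (ConjClasses.mk g)) Λ → ∀ s₀ : ℂ, ρ < s₀.re →
        ∃ (m : ℤ) (r₀ : ℂ), meromorphicOrderAt Λ s₀ = m ∧ meromorphicTrailingCoeffAt Λ s₀ = exp r₀ ∧
          (fun T : ℝ => (∑ᶠ C, φ C * pClass P α β γ s₀ T C) - (r₀ - m * (Real.log T - Lambda γ))) =O[atTop]
            (fun T : ℝ => 1 / T)) ∧
    (∀ (n : ℕ) (a : Fin n → ℂ) (φ : Fin n → ConjClasses (F ≃ₐ[K] F) → ℂ) (ρ : ℝ) (Λ : Fin n → ℂ → ℂ),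
      (∀ i, IsL P α β ρ (fun g => φ i (ConjClasses.mk g)) (Λ i)) → ∀ s₀ : ℂ, ρ < s₀.re →
        ∀ m : Fin n → ℤ, (∀ i, meromorphicOrderAt (Λ i) s₀ = m i) →
          Tendsto (fun T : ℝ => (∑ᶠ C, (∑ i, a i * φ i C) * pClass P α β γ s₀ T C) / (Real.log T : ℂ)) atTop
            (𝓝 (-∑ i, a i * m i))) ∧
    (∀ (ρ : ℝ) (Λ : Subgroup (F ≃ₐ[K] F) → ℂ → ℂ), (∀ H, IsL P α β ρ (perm H) (Λ H)) →
      ((∀ (H : Subgroup (F ≃ₐ[K] F)) (s₀ : ℂ), ρ < s₀.re → 0 ≤ meromorphicOrderAt (Λ H) s₀) ↔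
        ∀ (H : Subgroup (F ≃ₐ[K] F)) (s₀ : ℂ), ρ < s₀.re →
          ∃ C : ℝ, ∀ᶠ T : ℝ in atTop, (pSum P α β (perm H) γ s₀ T).re ≤ C) ∧
      ((∀ (H : Subgroup (F ≃ₐ[K] F)) (s₀ : ℂ), ρ < s₀.re → 0 ≤ meromorphicOrderAt (Λ H) s₀) ↔
        ∀ (H : Subgroup (F ≃ₐ[K] F)) (s₀ : ℂ), ρ < s₀.re →
          ∃ c : ℝ, c < 1 ∧ ∃ᶠ T : ℝ in atTop, (pSum P α β (perm H) γ s₀ T).re ≤ c * Real.log T)) := by
  have hc := pure hE
  refine ⟨fun f s₀ T hT => p_summable hc f γ s₀ hT, ?_, ?_, ?_⟩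
  · intro φ ρ Λ hΛ s₀ hs
    obtain ⟨m, r₀, h1, h2, h3⟩ := p_asy hc hΛ hγ hs
    refine ⟨m, r₀, h1, h2, h3.congr' ?_ EventuallyEq.rfl⟩
    filter_upwards [eventually_gt_atTop (0 : ℝ)] with T hT
    rw [pSum_class hc φ γ s₀ hT]
  · intro n a φ ρ Λ hΛ s₀ hs m hm
    exact lim_comb hc a φ Λ hΛ hγ hs m hm
  · intro ρ Λ hΛ
    have key : ∀ (C : ℝ) (H : Subgroup (F ≃ₐ[K] F)) (s₀ : ℂ),
        (∀ᶠ T : ℝ in atTop, (pSum P α β (perm H) γ s₀ T).re ≤ C) →
        ∃ᶠ T : ℝ in atTop, (pSum P α β (perm H) γ s₀ T).re ≤ (1 / 2) * Real.log T := by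
      intro C H s₀ h1
      refine Eventually.frequently ?_
      have h2 : ∀ᶠ T : ℝ in atTop, 2 * C < Real.log T :=
        Real.tendsto_log_atTop.eventually (eventually_gt_atTop _)
      filter_upwards [h1, h2] with T h3 h4
      linarith
    refine ⟨⟨fun h H s₀ hs => (crit hc (hΛ H) hγ hs).1 (h H s₀ hs), fun h H s₀ hs => ?_⟩,
      ⟨fun h H s₀ hs => ?_, fun h H s₀ hs => (crit hc (hΛ H) hγ hs).2 (h H s₀ hs)⟩⟩
    · obtain ⟨C, hC⟩ := h H s₀ hs
      exact (crit hc (hΛ H) hγ hs).2 ⟨1 / 2, by norm_num, key C H s₀ hC⟩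
    · obtain ⟨C, hC⟩ := (crit hc (hΛ H) hγ hs).1 (h H s₀ hs)
      exact ⟨1 / 2, by norm_num, key C H s₀ hC⟩

end Pool.Agent.Results.MP_bf61d2_nt.PolesOverIntermediateFields
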